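import Pool.Agent.W662.CB.Stmts

set_option autoImplicit false

open MeasureTheory Filter Topology Complex
open scoped InnerProductSpace ENNReal

namespace Pool.Agent.W132.CB
open Pool.Agent.W662.CB

noncomputable section

variable {H : Type} [NormedAddCommGroup H] [InnerProductSpace ℂ H] [CompleteSpace H]

lemma isConst_unique (y : H →L[ℂ] H) (S S' : LR H →L[ℂ] LR H) (h : IsConst y S)
    (h' : IsConst y S') : S = S' := by
  ext1 f
  apply Lp.ext
  filter_upwards [h f, h' f] with s hs hs'
  rw [hs, hs']

/-- constant operators -/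
def kap (y : H →L[ℂ] H) : LR H →L[ℂ] LR H := y.compLpL 2 (volume : Measure ℝ)

lemma isConst_kap (y : H →L[ℂ] H) : IsConst y (kap y) := fun f =>
  ContinuousLinearMap.coeFn_compLpL y f

lemma isConst_mul (y z : H →L[ℂ] H) (S T : LR H →L[ℂ] LR H) (h : IsConst y S)
    (h' : IsConst z T) : IsConst (y * z) (S * T) := by
  intro f
  have h1 := h (T f)
  have h2 := h' f
  filter_upwards [h1, h2] with s hs1 hs2
  change (S (T f) : ℝ → H) s = y (z (f s))
  rw [hs1, hs2]

lemma isConst_scalar (c : ℂ) :
    IsConst (algebraMap ℂ (H →L[ℂ] H) c) (algebraMap ℂ (LR H →L[ℂ] LR H) c) := by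
  intro f
  have h1 : (algebraMap ℂ (LR H →L[ℂ] LR H) c) f = c • f := by
    rw [Algebra.algebraMap_eq_smul_one]
    simp
  rw [h1]
  filter_upwards [Lp.coeFn_smul c f] with s hs
  rw [hs, Algebra.algebraMap_eq_smul_one]
  simp

lemma isConst_add (y z : H →L[ℂ] H) (S T : LR H →L[ℂ] LR H) (h : IsConst y S)
    (h' : IsConst z T) : IsConst (y + z) (S + T) := by
  intro f
  filter_upwards [h f, h' f, Lp.coeFn_add (S f) (T f)] with s hs1 hs2 hs3
  change (S f + T f : LR H) s = y (f s) + z (f s)
  rw [hs3, Pi.add_apply, hs1, hs2]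

lemma star_kap (y : H →L[ℂ] H) : kap (star y) = star (kap y) := by
  rw [ContinuousLinearMap.star_eq_adjoint, ContinuousLinearMap.star_eq_adjoint,
    ContinuousLinearMap.eq_adjoint_iff]
  intro f g
  rw [L2.inner_def, L2.inner_def]
  apply integral_congr_ae
  filter_upwards [isConst_kap (ContinuousLinearMap.adjoint y) f, isConst_kap y g] with s hs1 hs2
  rw [hs1, hs2, ContinuousLinearMap.adjoint_inner_left]

theorem e1 : S_E1 := by
  intro H _ _ _
  refine ⟨
    { toFun := kap
      map_one' := ?_
      map_mul' := ?_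
      map_zero' := ?_
      map_add' := ?_
      commutes' := ?_
      map_star' := ?_ }, ?_⟩
  · have h := isConst_scalar (H := H) 1
    rw [map_one, map_one] at h
    exact isConst_unique _ _ _ (isConst_kap _) h
  · intro x y
    exact isConst_unique _ _ _ (isConst_kap _) (isConst_mul _ _ _ _ (isConst_kap x) (isConst_kap y))
  · have h := isConst_scalar (H := H) 0
    rw [map_zero, map_zero] at h
    exact isConst_unique _ _ _ (isConst_kap _) h
  · intro x y
    exact isConst_unique _ _ _ (isConst_kap _) (isConst_add _ _ _ _ (isConst_kap x) (isConst_kap y))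
  · intro c
    exact isConst_unique _ _ _ (isConst_kap _) (isConst_scalar c)
  · intro x
    exact star_kap x
  · intro y
    exact isConst_kap y

end

end Pool.Agent.W132.CB
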